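import Pool.Agent.helper80.RSV.Base

/-!
# Residually small varieties of groups, module E3: Jonsson's lemma
-/

namespace Pool.Agent.helper80.RSV

open Function

namespace E3

/-- a maximal filter inside an upward closed family -/
theorem exists_max_filter {ι : Type} (good : Set ι → Prop) (hmono : ∀ J J', J ⊆ J' → good J → good J')
    (huniv : good Set.univ) : ∃ 𝒟 : Filter ι, (∀ J ∈ 𝒟, good J) ∧
      ∀ J, (∀ D ∈ 𝒟, good (D ∩ J)) → J ∈ 𝒟 := by
  have hz : ∀ c ⊆ {𝒟 : (Filter ι)ᵒᵈ | ∀ J ∈ OrderDual.ofDual 𝒟, good J}, IsChain (· ≤ ·) c →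
      ∀ y ∈ c, ∃ ub ∈ {𝒟 : (Filter ι)ᵒᵈ | ∀ J ∈ OrderDual.ofDual 𝒟, good J}, ∀ z ∈ c, z ≤ ub := by
    intro c hc hchain y hy
    refine ⟨OrderDual.toDual (⨅ 𝒟 ∈ c, OrderDual.ofDual 𝒟), ?_, ?_⟩
    · intro J hJ
      rw [OrderDual.ofDual_toDual, Filter.mem_biInf_of_directed _ ⟨y, hy⟩] at hJ
      · obtain ⟨𝒟, h𝒟, hJ⟩ := hJ
        exact hc h𝒟 J hJ
      · intro a ha b hb
        rcases hchain.total ha hb with h | h
        · exact ⟨b, hb, h, le_refl _⟩
        · exact ⟨a, ha, le_refl _, h⟩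
    · intro z hz
      exact biInf_le (fun 𝒟 : (Filter ι)ᵒᵈ => OrderDual.ofDual 𝒟) hz
  obtain ⟨𝒟, -, hmax⟩ := zorn_le_nonempty₀ _ hz (OrderDual.toDual (⊤ : Filter ι)) (by
    intro J hJ
    rw [OrderDual.ofDual_toDual, Filter.mem_top] at hJ
    rw [hJ]; exact huniv)
  refine ⟨OrderDual.ofDual 𝒟, hmax.prop, fun J hJ => ?_⟩
  have h1 : OrderDual.toDual (OrderDual.ofDual 𝒟 ⊓ Filter.principal J) ∈
      {𝒟 : (Filter ι)ᵒᵈ | ∀ J ∈ OrderDual.ofDual 𝒟, good J} := by
    intro A hA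
    rw [OrderDual.ofDual_toDual, Filter.mem_inf_principal] at hA
    refine hmono _ _ ?_ (hJ _ hA)
    rintro i ⟨h1, h2⟩
    exact h1 h2
  have h2 : 𝒟 ≤ OrderDual.toDual (OrderDual.ofDual 𝒟 ⊓ Filter.principal J) := by
    show OrderDual.ofDual 𝒟 ⊓ Filter.principal J ≤ OrderDual.ofDual 𝒟
    exact inf_le_left
  have h3 : OrderDual.ofDual 𝒟 ≤ OrderDual.ofDual 𝒟 ⊓ Filter.principal J := hmax.2 h1 h2
  exact Filter.le_principal_iff.mp (h3.trans inf_le_right)

end E3

theorem jonsson {Φ ι F : Type} [Group Φ] [Group F] [Finite F] (f : ι → (Φ →* F))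
    {N L : Subgroup Φ} (hN : N.Normal) (hL : L.Normal) (hNL : N < L)
    (hmin : ∀ K : Subgroup Φ, K.Normal → N < K → L ≤ K)
    (h0 : ∀ x ∈ L, (∀ i, f i x = 1) → x ∈ N) :
    ∃ ψ : Φ →* F, ∀ k, ψ k = 1 → ∀ l ∈ L, k * l * k⁻¹ * l⁻¹ ∈ N := by
  classical
  obtain ⟨x₀, hx₀L, hx₀N⟩ := SetLike.exists_of_lt hNL
  obtain ⟨𝒟, h𝒟, hmax⟩ := E3.exists_max_filter
    (fun J : Set ι => ∀ x ∈ L, (∀ i ∈ J, f i x = 1) → x ∈ N)
    (fun J J' hJ h x hx h' => h x hx fun i hi => h' i (hJ hi))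
    (fun x hx h => h0 x hx fun i => h i (Set.mem_univ i))
  have hne : 𝒟.NeBot := by
    refine ⟨fun h => hx₀N ?_⟩
    refine h𝒟 ∅ ?_ x₀ hx₀L (fun i hi => absurd hi (Set.notMem_empty i))
    rw [h]; exact Filter.mem_bot
  -- the key claim
  have key : ∀ J : Set ι, Jᶜ ∉ 𝒟 → ∀ k, (∀ i ∈ J, f i k = 1) → ∀ l ∈ L, k * l * k⁻¹ * l⁻¹ ∈ N := by
    intro J hJ k hk l hl
    have h1 : ∃ D ∈ 𝒟, ∃ x ∈ L, (∀ i ∈ D ∩ Jᶜ, f i x = 1) ∧ x ∉ N := by
      by_contra hcon
      push Not at hcon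
      exact hJ (hmax _ hcon)
    obtain ⟨D, hD, x, hxL, hx1, hxN⟩ := h1
    let K : Subgroup Φ := (⨅ i ∈ D ∩ Jᶜ, (f i).ker) ⊓ L
    have hKmem : ∀ a, a ∈ K ↔ (∀ i ∈ D ∩ Jᶜ, f i a = 1) ∧ a ∈ L := by
      intro a
      simp only [K, Subgroup.mem_inf, Subgroup.mem_iInf, MonoidHom.mem_ker]
    have hK : K.Normal := by
      refine ⟨fun a ha g => ?_⟩
      rw [hKmem] at ha ⊢
      refine ⟨fun i hi => ?_, hL.conj_mem a ha.2 g⟩
      rw [map_mul, map_mul, ha.1 i hi, mul_one, ← map_mul, mul_inv_cancel, map_one]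
    have h2 : L ≤ K ⊔ N := by
      refine hmin _ (Subgroup.sup_normal K N) (lt_of_le_of_ne le_sup_right ?_)
      intro h
      apply hxN
      rw [h]
      exact Subgroup.mem_sup_left ((hKmem x).mpr ⟨hx1, hxL⟩)
    obtain ⟨a, ha, n, hn, rfl⟩ := Subgroup.mem_sup_of_normal_right.mp (h2 hl)
    rw [hKmem] at ha
    have h3 : k * a * k⁻¹ * a⁻¹ ∈ N := by
      refine h𝒟 D hD _ (L.mul_mem (hL.conj_mem a ha.2 k) (L.inv_mem ha.2)) fun i hi => ?_
      by_cases hiJ : i ∈ J
      · rw [map_mul, map_mul, map_mul, hk i hiJ, one_mul, map_inv, map_inv, hk i hiJ]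
        group
      · rw [map_mul, map_mul, map_mul, ha.1 i ⟨hi, hiJ⟩, map_inv, map_inv, ha.1 i ⟨hi, hiJ⟩]
        group
    have e : k * (a * n) * k⁻¹ * (a * n)⁻¹ =
        (k * a * k⁻¹ * a⁻¹) * (a * ((k * n * k⁻¹) * n⁻¹) * a⁻¹) := by group
    rw [e]
    exact N.mul_mem h3 (hN.conj_mem _ (N.mul_mem (hN.conj_mem n hn k) (N.inv_mem hn)) a)
  -- the ultraproduct
  let 𝒰 : Ultrafilter ι := Ultrafilter.of 𝒟
  have h𝒰 : ∀ J ∈ 𝒰, Jᶜ ∉ 𝒟 := by
    intro J hJ hJ'
    have h1 : Jᶜ ∈ 𝒰 := Ultrafilter.of_le 𝒟 hJ'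
    exact (Ultrafilter.compl_mem_iff_notMem.mp h1) hJ
  have hex : ∀ k, ∃ c, {i | f i k = c} ∈ 𝒰 := by
    intro k
    obtain ⟨c, hc⟩ := Ultrafilter.eq_pure_of_finite (𝒰.map (fun i => f i k))
    refine ⟨c, ?_⟩
    have h1 : ({c} : Set F) ∈ 𝒰.map (fun i => f i k) := by
      rw [hc]; exact Set.mem_singleton c
    exact h1
  choose ψ hψ using hex
  refine ⟨MonoidHom.mk' ψ ?_, ?_⟩
  · intro a b
    have h1 := 𝒰.inter_mem (𝒰.inter_mem (hψ a) (hψ b)) (hψ (a * b))
    obtain ⟨i, ⟨hi1, hi2⟩, hi3⟩ := 𝒰.nonempty_of_mem h1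
    simp only [Set.mem_ofPred_eq] at hi1 hi2 hi3
    rw [← hi1, ← hi2, ← hi3, map_mul]
  · intro k hk l hl
    have hk' : ψ k = 1 := hk
    have h1 := hψ k
    rw [hk'] at h1
    exact key _ (h𝒰 _ h1) k (fun i hi => hi) l hl

namespace E3

/-- a word in any alphabet involves only finitely many letters -/
theorem word_finite {α : Type} (w : FreeGroup α) : ∃ s : Finset α, ∀ (G : Type) [Group G]
    (f f' : α → G), (∀ a ∈ s, f a = f' a) → FreeGroup.lift f w = FreeGroup.lift f' w := by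
  classical
  induction w using FreeGroup.induction_on with
  | C1 => exact ⟨∅, fun G _ f f' _ => by simp⟩
  | of n => exact ⟨{n}, fun G _ f f' h => by simpa using h n (by simp)⟩
  | inv_of n _ => exact ⟨{n}, fun G _ f f' h => by simpa using h n (by simp)⟩
  | mul x y hx hy =>
    obtain ⟨s, hs⟩ := hx
    obtain ⟨t, ht⟩ := hy
    refine ⟨s ∪ t, fun G _ f f' h => ?_⟩
    rw [map_mul, map_mul, hs G f f' (fun n hn => h n (Finset.mem_union_left _ hn)),
      ht G f f' (fun n hn => h n (Finset.mem_union_right _ hn))]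

/-- a word (in any alphabet) in the commutator subgroup which is killed by all homomorphisms to
`F` is a law of every group in the variety generated by `F × ℤ` -/
theorem law_word {F : Type} [Group F] {G : Type} [Group G]
    (hG : InVar (F × Multiplicative ℤ) G) {α : Type} {w : FreeGroup α}
    (hw : w ∈ commutator (FreeGroup α)) (hF : ∀ φ : FreeGroup α →* F, φ w = 1) (f : α → G) :
    FreeGroup.lift f w = 1 := by
  classical
  obtain ⟨s, hs⟩ := word_finite w
  -- an injection of the letters in `s` into `ℕ`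
  obtain ⟨e, r, her⟩ : ∃ (e : α → ℕ) (r : ℕ → G), ∀ a ∈ s, r (e a) = f a := by
    let g := s.equivFin
    refine ⟨fun a => if h : a ∈ s then (g ⟨a, h⟩ : ℕ) else 0,
      fun n => if h : n < s.card then f (g.symm ⟨n, h⟩) else 1, fun a ha => ?_⟩
    simp [ha]
  have h1 : Law (FreeGroup.map e w) (F × Multiplicative ℤ) := by
    intro v
    have h2 : FreeGroup.lift v (FreeGroup.map e w) =
        ((FreeGroup.lift v).comp (FreeGroup.map e)) w := rfl
    rw [h2]
    set φ := (FreeGroup.lift v).comp (FreeGroup.map e)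
    refine Prod.ext ?_ ?_
    · exact hF ((MonoidHom.fst F (Multiplicative ℤ)).comp φ)
    · have h3 : commutator (FreeGroup α) ≤ ((MonoidHom.snd F (Multiplicative ℤ)).comp φ).ker :=
        Abelianization.commutator_subset_ker _
      exact h3 hw
  have h2 := hG _ h1 r
  have h3 : FreeGroup.lift r (FreeGroup.map e w) = FreeGroup.lift (fun a => r (e a)) w := by
    have : (FreeGroup.lift r).comp (FreeGroup.map e) = FreeGroup.lift (fun a => r (e a)) := by
      ext a; simp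
    exact DFunLike.congr_fun this w
  rw [h3] at h2
  rw [← hs G (fun a => r (e a)) f her]
  exact h2

end E3

theorem finite_quot {F : Type} [Group F] [Finite F] {G : Type} [Group G]
    (hG : InVar (F × Multiplicative ℤ) G) {M : Subgroup G} (hM : LeastNormal M) :
    (∀ m ∈ M, ∀ g : G, g * m = m * g) ∨ (Subgroup.centralizer (M : Set G)).FiniteIndex := by
  classical
  let π : FreeGroup G →* G := FreeGroup.lift id
  have hπ : Surjective π := fun g => ⟨FreeGroup.of g, by simp [π]⟩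
  let N : Subgroup (FreeGroup G) := π.ker
  let L : Subgroup (FreeGroup G) := M.comap π
  have hMn := hM.1
  have hN : N.Normal := inferInstance
  have hL : L.Normal := inferInstance
  have hNL' : N ≤ L := by
    intro x hx
    have : π x = 1 := hx
    rw [Subgroup.mem_comap, this]
    exact M.one_mem
  have hNL : N < L := by
    refine lt_of_le_of_ne hNL' fun h => hM.2.1 ?_
    rw [eq_bot_iff]
    intro m hm
    obtain ⟨x, rfl⟩ := hπ m
    have hx : x ∈ L := hm
    rw [← h] at hx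
    rw [Subgroup.mem_bot]
    exact hx
  have hmin : ∀ K : Subgroup (FreeGroup G), K.Normal → N < K → L ≤ K := by
    intro K hK hNK x hx
    have h1 : (K.map π).Normal := hK.map π hπ
    have h2 : K.map π ≠ ⊥ := by
      intro h
      have : K ≤ N := by
        intro k hk
        have : π k ∈ K.map π := Subgroup.mem_map_of_mem π hk
        rw [h, Subgroup.mem_bot] at this
        exact this
      exact absurd hNK (not_lt_of_ge this)
    have h3 := hM.2.2 _ h1 h2 hx
    obtain ⟨k, hk, hkx⟩ := h3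
    have h4 : k⁻¹ * x ∈ N := by
      show π (k⁻¹ * x) = 1
      rw [map_mul, map_inv, hkx, inv_mul_cancel]
    have := K.mul_mem hk (hNK.le h4)
    simpa using this
  by_cases hcase : ∀ x ∈ L, (∀ φ : FreeGroup G →* F, φ x = 1) → x ∈ N
  · right
    obtain ⟨ψ, hψ⟩ := jonsson (fun φ : FreeGroup G →* F => φ) hN hL hNL hmin hcase
    have h1 : ψ.ker ≤ (Subgroup.centralizer (M : Set G)).comap π := by
      intro k hk
      rw [Subgroup.mem_comap, Subgroup.mem_centralizer_iff]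
      intro m hm
      obtain ⟨l, rfl⟩ := hπ m
      have h2 : k * l * k⁻¹ * l⁻¹ ∈ N := hψ k hk l hm
      have h3 : π (k * l * k⁻¹ * l⁻¹) = 1 := h2
      simp only [map_mul, map_inv] at h3
      rw [mul_inv_eq_one, mul_inv_eq_iff_eq_mul] at h3
      exact h3.symm
    have h2 : ψ.ker.FiniteIndex := by
      have : Finite (FreeGroup G ⧸ ψ.ker) :=
        Finite.of_injective _ (QuotientGroup.kerLift_injective ψ)
      exact Subgroup.finiteIndex_of_finite_quotient
    have h3 : ((Subgroup.centralizer (M : Set G)).comap π).FiniteIndex :=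
      Subgroup.finiteIndex_of_le h1
    refine ⟨?_⟩
    have h4 := h3.index_ne_zero
    rwa [Subgroup.index_comap_of_surjective _ hπ] at h4
  · left
    push Not at hcase
    obtain ⟨x, hxL, hxφ, hxN⟩ := hcase
    let D : Subgroup (FreeGroup G) := (⨅ φ : FreeGroup G →* F, φ.ker) ⊓ L
    have hDmem : ∀ a, a ∈ D ↔ (∀ φ : FreeGroup G →* F, φ a = 1) ∧ a ∈ L := by
      intro a
      simp only [D, Subgroup.mem_inf, Subgroup.mem_iInf, MonoidHom.mem_ker]
    have hD : D.Normal := by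
      refine ⟨fun a ha g => ?_⟩
      rw [hDmem] at ha ⊢
      refine ⟨fun φ => ?_, hL.conj_mem a ha.2 g⟩
      rw [map_mul, map_mul, ha.1 φ, mul_one, ← map_mul, mul_inv_cancel, map_one]
    have h2 : L ≤ D ⊔ N := by
      refine hmin _ (Subgroup.sup_normal D N) (lt_of_le_of_ne le_sup_right ?_)
      intro h
      apply hxN
      rw [h]
      exact Subgroup.mem_sup_left ((hDmem x).mpr ⟨hxφ, hxL⟩)
    intro m hm g
    obtain ⟨l, rfl⟩ := hπ m
    obtain ⟨y, rfl⟩ := hπ g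
    have hlL : l ∈ L := hm
    obtain ⟨a, ha, n, hn, rfl⟩ := Subgroup.mem_sup_of_normal_right.mp (h2 hlL)
    rw [hDmem] at ha
    have h3 : y * a * y⁻¹ * a⁻¹ ∈ commutator (FreeGroup G) := by
      rw [← commutatorElement_def]
      exact Subgroup.commutator_mem_commutator (Subgroup.mem_top _) (Subgroup.mem_top _)
    have h4 : π (y * a * y⁻¹ * a⁻¹) = 1 := by
      refine E3.law_word hG h3 (fun φ => ?_) id
      simp only [map_mul, map_inv, ha.1 φ]
      group
    have hn1 : π n = 1 := hn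
    simp only [map_mul, map_inv, hn1, mul_one] at h4 ⊢
    rw [mul_inv_eq_one, mul_inv_eq_iff_eq_mul] at h4
    exact h4

end Pool.Agent.helper80.RSV
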