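import Mathlib

namespace Pool.Agent.helper88

/-- Super-Catalan numbers in the shape `S s m = R(m) R(s-m) / s!`, `R(j) = (2j)!/j!`. -/
def S : ℕ → ℕ → ℤ
  | s, 0 => (s.centralBinom : ℤ)
  | 0, (_m + 1) => (-1) ^ (_m + 1)
  | (s + 1), (m + 1) => 4 * S s m - S (s + 1) m

theorem S_zero_right (s : ℕ) : S s 0 = (s.centralBinom : ℤ) := by
  cases s <;> rfl

theorem S_zero_left (m : ℕ) : S 0 m = (-1) ^ m := by
  cases m with
  | zero => simp [S_zero_right]
  | succ m => rfl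

theorem S_succ_succ (s m : ℕ) : S (s + 1) (m + 1) = 4 * S s m - S (s + 1) m := rfl

theorem S_level_of_ratio (s : ℕ)
    (h : ∀ m : ℕ, (2 * (s : ℤ) - 2 * m - 1) * S s (m + 1) = (2 * m + 1) * S s m) (m : ℕ) :
    ((s : ℤ) + 1) * S (s + 1) m = 2 * (2 * s - 2 * m + 1) * S s m := by
  induction m with
  | zero =>
    rw [S_zero_right, S_zero_right]
    have := Nat.succ_mul_centralBinom_succ s
    push_cast
    have h2 : ((s : ℤ) + 1) * ((s + 1).centralBinom : ℤ) = 2 * (2 * s + 1) * (s.centralBinom : ℤ) := by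
      exact_mod_cast this
    rw [h2]; ring
  | succ m ih =>
    rw [S_succ_succ, mul_sub, ih]
    have := h m
    push_cast
    linear_combination (-2) * this

theorem S_ratio_of_level (s : ℕ)
    (h : ∀ m : ℕ, ((s : ℤ) + 1) * S (s + 1) m = 2 * (2 * s - 2 * m + 1) * S s m) (m : ℕ) :
    (2 * ((s + 1 : ℕ) : ℤ) - 2 * m - 1) * S (s + 1) (m + 1) = (2 * m + 1) * S (s + 1) m := by
  rw [S_succ_succ]
  have := h m
  push_cast
  linear_combination (-2) * this

theorem S_ratio (s m : ℕ) : (2 * (s : ℤ) - 2 * m - 1) * S s (m + 1) = (2 * m + 1) * S s m := by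
  induction s generalizing m with
  | zero => rw [S_zero_left, S_zero_left, pow_succ]; push_cast; ring
  | succ s ih => exact S_ratio_of_level s (S_level_of_ratio s ih) m

theorem S_level (s m : ℕ) : ((s : ℤ) + 1) * S (s + 1) m = 2 * (2 * s - 2 * m + 1) * S s m :=
  S_level_of_ratio s (S_ratio s) m

theorem S_diag (s m : ℕ) : ((s : ℤ) + 1) * S (s + 1) (m + 1) = 2 * (2 * m + 1) * S s m := by
  rw [S_succ_succ, mul_sub, S_level]; ring

/-- `(c+1) C(M+1,c+1) = (M+1) C(M,c)` -/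
theorem ch_diag (M c : ℕ) :
    ((c : ℤ) + 1) * ((M + 1).choose (c + 1) : ℤ) = (M + 1) * (M.choose c : ℤ) := by
  have := Nat.add_one_mul_choose_eq M c
  have h2 : ((M : ℤ) + 1) * (M.choose c : ℤ) = ((M + 1).choose (c + 1) : ℤ) * (c + 1) := by
    exact_mod_cast this
  linarith

/-- `(c+1) C(M,c+1) = (M-c) C(M,c)` -/
theorem ch_right (M c : ℕ) :
    ((c : ℤ) + 1) * (M.choose (c + 1) : ℤ) = ((M : ℤ) - c) * (M.choose c : ℤ) := by
  rcases le_or_gt c M with h | h
  · have := Nat.choose_succ_right_eq M c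
    have h2 : (M.choose (c + 1) : ℤ) * (c + 1) = (M.choose c : ℤ) * ((M : ℤ) - c) := by
      have h3 : ((M - c : ℕ) : ℤ) = (M : ℤ) - c := by push_cast [h]; ring
      rw [← h3]; exact_mod_cast this
    linarith
  · rw [Nat.choose_eq_zero_of_lt h, Nat.choose_eq_zero_of_lt (by omega)]; simp

/-- `(M+1-c) C(M+1,c) = (M+1) C(M,c)` -/
theorem ch_up (M c : ℕ) :
    ((M : ℤ) + 1 - c) * ((M + 1).choose c : ℤ) = (M + 1) * (M.choose c : ℤ) := by
  rcases c with _ | c
  · simp
  · have h1 := ch_diag M c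
    have h2 := ch_right M c
    have h3 : ((M + 1).choose (c + 1) : ℤ) = (M.choose c : ℤ) + (M.choose (c + 1) : ℤ) := by
      exact_mod_cast Nat.choose_succ_succ M c
    push_cast
    rw [h3] at h1 ⊢
    linear_combination (-1) * h2

/-- `(M+1)(C(M,c)-C(M,c+1)) = (2c+1-M) C(M+1,c+1)` -/
theorem ch_ballot (M c : ℕ) :
    ((M : ℤ) + 1) * ((M.choose c : ℤ) - (M.choose (c + 1) : ℤ)) =
      (2 * c + 1 - M) * ((M + 1).choose (c + 1) : ℤ) := by
  have h1 := ch_diag M c
  have h3 : ((M + 1).choose (c + 1) : ℤ) = (M.choose c : ℤ) + (M.choose (c + 1) : ℤ) := by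
    exact_mod_cast Nat.choose_succ_succ M c
  have h2 := ch_right M c
  rw [h3] at h1 ⊢
  linear_combination (-2) * h1 + 0 * h2

end Pool.Agent.helper88
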