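import Pool.Agent.helper88.SuperCat

namespace Pool.Agent.helper88

def PF (k : ℤ) : ℤ := 21 * k ^ 3 + 22 * k ^ 2 + 8 * k + 1
def PG (k : ℤ) : ℤ := 168 * k ^ 3 + 76 * k ^ 2 + 14 * k + 1

/-- terms of the first auxiliary sum -/
def tF (m k : ℕ) : ℤ :=
  S (2 * m + 1) (m + 1 + k) ^ 2 * ((2 * m + 2).choose (m + 2 * k + 2) : ℤ) *
    (((2 * m + 1).choose (m + 2 * k + 1) : ℤ) - ((2 * m + 1).choose (m + 2 * k + 2) : ℤ))

def VF (N k : ℕ) : ℤ := S (2 * N) (N + k) * ((2 * N).choose (N + 2 * k) : ℤ)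
def HF (N k : ℕ) : ℤ := VF N k ^ 2 * (PF N - 4 * (3 * N + 1) * k ^ 2)

/-- terms of the second auxiliary sum -/
def tG (m k : ℕ) : ℤ :=
  S (2 * m) (m + 1 + 2 * k) ^ 2 * ((2 * m + 1).choose (m + k + 1) : ℤ) *
    (((2 * m).choose (m + k) : ℤ) - ((2 * m).choose (m + k + 1) : ℤ))

def VG (N k : ℕ) : ℤ := S (2 * N) (N + 2 * k) * ((2 * N).choose (N + k) : ℤ)
def HG (N k : ℕ) : ℤ := VG N k ^ 2 * (PG N - 16 * (6 * N + 1) * k ^ 2)

theorem teleF (m k : ℕ) :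
    (2 * (m : ℤ) + 3) ^ 3 * tF (m + 1) k - 32 * ((m : ℤ) + 1) ^ 3 * tF m k =
      4 * (HF (m + 1) k - HF (m + 1) (k + 1)) := by
  -- notation
  set N : ℚ := (m : ℚ) + 1 with hN
  set K : ℚ := (k : ℚ) with hK
  set s : ℚ := (S (2 * (m + 1)) (m + 1 + k) : ℚ) with hs
  set c : ℚ := ((2 * (m + 1)).choose (m + 1 + 2 * k) : ℚ) with hc
  have hm0 : (0 : ℚ) ≤ (m : ℚ) := Nat.cast_nonneg m
  have hk0 : (0 : ℚ) ≤ (k : ℚ) := Nat.cast_nonneg k
  have hodd : (2 * N - 2 * K - 1 : ℚ) ≠ 0 := by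
    intro h
    have : (2 * ((m : ℤ) + 1) - 2 * k - 1 : ℤ) = 0 := by
      have h' : ((2 * ((m : ℤ) + 1) - 2 * k - 1 : ℤ) : ℚ) = 0 := by push_cast; linarith
      exact_mod_cast h'
    omega
  -- S (2N+1) (N+1+k)
  have e1 : (S (2 * (m + 1) + 1) (m + 1 + 1 + k) : ℚ) = 2 * (2 * N + 2 * K + 1) / (2 * N + 1) * s := by
    have h := S_diag (2 * (m + 1)) (m + 1 + k)
    have h' : ((2 * ((m : ℚ) + 1)) + 1) * (S (2 * (m + 1) + 1) (m + 1 + k + 1) : ℚ)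
        = 2 * (2 * ((m : ℚ) + 1 + k) + 1) * (S (2 * (m + 1)) (m + 1 + k) : ℚ) := by exact_mod_cast h
    rw [show m + 1 + 1 + k = m + 1 + k + 1 by ring]
    rw [eq_comm, div_mul_eq_mul_div, div_eq_iff (by positivity)]
    rw [hs, hN, hK]; linear_combination (-1) * h'
  -- C(2N+2, N+2k+2)
  have e2a : ((2 * (m + 1) + 1).choose (m + 1 + 2 * k + 1) : ℚ) = (2 * N + 1) / (N + 2 * K + 1) * c := by
    have h := ch_diag (2 * (m + 1)) (m + 1 + 2 * k)
    have h' : (((m : ℚ) + 1 + 2 * k) + 1) * ((2 * (m + 1) + 1).choose (m + 1 + 2 * k + 1) : ℚ)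
        = (2 * ((m : ℚ) + 1) + 1) * ((2 * (m + 1)).choose (m + 1 + 2 * k) : ℚ) := by exact_mod_cast h
    rw [eq_comm, div_mul_eq_mul_div, div_eq_iff (by positivity)]
    rw [hc, hN, hK]; linear_combination (-1) * h'
  have e2 : ((2 * (m + 1) + 2).choose (m + 1 + 2 * k + 2) : ℚ)
      = (2 * N + 2) / (N + 2 * K + 2) * ((2 * N + 1) / (N + 2 * K + 1) * c) := by
    have h := ch_diag (2 * (m + 1) + 1) (m + 1 + 2 * k + 1)
    have h' : (((m : ℚ) + 1 + 2 * k + 1) + 1) * ((2 * (m + 1) + 2).choose (m + 1 + 2 * k + 2) : ℚ)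
        = (2 * ((m : ℚ) + 1) + 1 + 1) * ((2 * (m + 1) + 1).choose (m + 1 + 2 * k + 1) : ℚ) := by
      exact_mod_cast h
    rw [e2a] at h'
    rw [eq_comm, div_mul_eq_mul_div, div_eq_iff (by positivity)]
    rw [hc, hN, hK] at *; linear_combination (-1) * h'
  have e3 : ((2 * (m + 1) + 1).choose (m + 1 + 2 * k + 1) : ℚ) - ((2 * (m + 1) + 1).choose (m + 1 + 2 * k + 2) : ℚ)
      = (4 * K + 2) / (2 * N + 2) * ((2 * N + 2) / (N + 2 * K + 2) * ((2 * N + 1) / (N + 2 * K + 1) * c)) := by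
    have h := ch_ballot (2 * (m + 1) + 1) (m + 1 + 2 * k + 1)
    have h' : (2 * ((m : ℚ) + 1) + 1 + 1) * (((2 * (m + 1) + 1).choose (m + 1 + 2 * k + 1) : ℚ) - ((2 * (m + 1) + 1).choose (m + 1 + 2 * k + 2) : ℚ))
        = (2 * ((m : ℚ) + 1 + 2 * k + 1) + 1 - (2 * (m + 1) + 1)) * ((2 * (m + 1) + 2).choose (m + 1 + 2 * k + 2) : ℚ) := by
      exact_mod_cast h
    rw [e2] at h'
    rw [eq_comm, div_mul_eq_mul_div, div_eq_iff (by positivity)]
    rw [hc, hN, hK] at *; linear_combination (-1) * h'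
  -- S (2N-1) (N+k)
  have e4 : (S (2 * m + 1) (m + 1 + k) : ℚ) = N / (2 * N - 2 * K - 1) * s := by
    have h := S_level (2 * m + 1) (m + 1 + k)
    have h' : ((2 * (m : ℚ) + 1) + 1) * (S (2 * (m + 1)) (m + 1 + k) : ℚ)
        = 2 * (2 * (2 * (m : ℚ) + 1) - 2 * (m + 1 + k) + 1) * (S (2 * m + 1) (m + 1 + k) : ℚ) := by
      exact_mod_cast h
    rw [eq_comm, div_mul_eq_mul_div, div_eq_iff hodd]
    rw [hs, hN, hK]; linear_combination (1/2) * h'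
  -- C(2N, N+2k+1)
  have e5 : ((2 * m + 2).choose (m + 2 * k + 2) : ℚ) = (N - 2 * K) / (N + 2 * K + 1) * c := by
    have h := ch_right (2 * (m + 1)) (m + 1 + 2 * k)
    have h' : (((m : ℚ) + 1 + 2 * k) + 1) * ((2 * (m + 1)).choose (m + 1 + 2 * k + 1) : ℚ)
        = (2 * ((m : ℚ) + 1) - (m + 1 + 2 * k)) * ((2 * (m + 1)).choose (m + 1 + 2 * k) : ℚ) := by
      exact_mod_cast h
    rw [show m + 2 * k + 2 = m + 1 + 2 * k + 1 by ring, show 2 * m + 2 = 2 * (m + 1) by ring]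
    rw [eq_comm, div_mul_eq_mul_div, div_eq_iff (by positivity)]
    rw [hc, hN, hK]; linear_combination (-1) * h'
  have e6 : ((2 * m + 1).choose (m + 2 * k + 1) : ℚ) - ((2 * m + 1).choose (m + 2 * k + 2) : ℚ)
      = (2 * K + 1) / N * ((N - 2 * K) / (N + 2 * K + 1) * c) := by
    have h := ch_ballot (2 * m + 1) (m + 2 * k + 1)
    have h' : (2 * (m : ℚ) + 1 + 1) * (((2 * m + 1).choose (m + 2 * k + 1) : ℚ) - ((2 * m + 1).choose (m + 2 * k + 2) : ℚ))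
        = (2 * ((m : ℚ) + 2 * k + 1) + 1 - (2 * m + 1)) * ((2 * m + 2).choose (m + 2 * k + 2) : ℚ) := by
      exact_mod_cast h
    rw [e5] at h'
    rw [eq_comm, div_mul_eq_mul_div, div_eq_iff (by positivity)]
    rw [hc, hN, hK] at *; linear_combination (-1/2) * h'
  -- S (2N) (N+k+1)
  have e7 : (S (2 * (m + 1)) (m + 1 + (k + 1)) : ℚ) = (2 * N + 2 * K + 1) / (2 * N - 2 * K - 1) * s := by
    have h := S_ratio (2 * (m + 1)) (m + 1 + k)
    have h' : (2 * (2 * ((m : ℚ) + 1)) - 2 * (m + 1 + k) - 1) * (S (2 * (m + 1)) (m + 1 + k + 1) : ℚ)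
        = (2 * (m + 1 + k) + 1) * (S (2 * (m + 1)) (m + 1 + k) : ℚ) := by
      exact_mod_cast h
    rw [show m + 1 + (k + 1) = m + 1 + k + 1 by ring]
    rw [eq_comm, div_mul_eq_mul_div, div_eq_iff hodd]
    rw [hs, hN, hK]; linear_combination (-1) * h'
  have e8 : ((2 * (m + 1)).choose (m + 1 + 2 * (k + 1)) : ℚ)
      = (N - 2 * K - 1) / (N + 2 * K + 2) * ((N - 2 * K) / (N + 2 * K + 1) * c) := by
    have h := ch_right (2 * (m + 1)) (m + 1 + 2 * k + 1)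
    have h' : (((m : ℚ) + 1 + 2 * k + 1) + 1) * ((2 * (m + 1)).choose (m + 1 + 2 * k + 1 + 1) : ℚ)
        = (2 * ((m : ℚ) + 1) - (m + 1 + 2 * k + 1)) * ((2 * (m + 1)).choose (m + 1 + 2 * k + 1) : ℚ) := by
      exact_mod_cast h
    have h5 := e5
    rw [show m + 2 * k + 2 = m + 1 + 2 * k + 1 by ring, show 2 * m + 2 = 2 * (m + 1) by ring] at h5
    rw [h5] at h'
    rw [show m + 1 + 2 * (k + 1) = m + 1 + 2 * k + 1 + 1 by ring]
    rw [eq_comm, div_mul_eq_mul_div, div_eq_iff (by positivity)]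
    rw [hc, hN, hK] at *; linear_combination (-1) * h'
  have key : (2 * (m : ℚ) + 3) ^ 3 * (tF (m + 1) k : ℚ) - 32 * ((m : ℚ) + 1) ^ 3 * (tF m k : ℚ) =
      4 * ((HF (m + 1) k : ℚ) - (HF (m + 1) (k + 1) : ℚ)) := by
    simp only [tF, HF, VF, PF]
    push_cast
    rw [e1, e2, e3, e4, e5, e6, e7, e8]
    rw [← hs, ← hc, ← hN, ← hK]
    have hm : (m : ℚ) = N - 1 := by rw [hN]; ring
    rw [hm]
    have h1 : (2 * N + 1 : ℚ) ≠ 0 := by positivity
    have h2 : (N + 2 * K + 1 : ℚ) ≠ 0 := by positivity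
    have h3 : (N + 2 * K + 2 : ℚ) ≠ 0 := by positivity
    have h4 : (2 * N + 2 : ℚ) ≠ 0 := by positivity
    have h5 : (N : ℚ) ≠ 0 := by positivity
    have h6 : (2 * (N - K) - 1 : ℚ) ≠ 0 := by
      intro h; apply hodd; linarith
    field_simp
    ring
  exact_mod_cast key

theorem teleG (m k : ℕ) :
    (2 * (m : ℤ) + 3) ^ 3 * tG (m + 1) k - 2 ^ 17 * ((m : ℤ) + 1) ^ 3 * tG m k =
      HG (m + 1) k - HG (m + 1) (k + 1) := by
  set N : ℚ := (m : ℚ) + 1 with hN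
  set K : ℚ := (k : ℚ) with hK
  set s : ℚ := (S (2 * (m + 1)) (m + 1 + 2 * k) : ℚ) with hs
  set c : ℚ := ((2 * (m + 1)).choose (m + 1 + k) : ℚ) with hc
  have hm0 : (0 : ℚ) ≤ (m : ℚ) := Nat.cast_nonneg m
  have hk0 : (0 : ℚ) ≤ (k : ℚ) := Nat.cast_nonneg k
  have hodd1 : (2 * N - 4 * K - 1 : ℚ) ≠ 0 := by
    intro h
    have : (2 * ((m : ℤ) + 1) - 4 * k - 1 : ℤ) = 0 := by
      have h' : ((2 * ((m : ℤ) + 1) - 4 * k - 1 : ℤ) : ℚ) = 0 := by push_cast; linarith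
      exact_mod_cast h'
    omega
  have hodd3 : (2 * N - 4 * K - 3 : ℚ) ≠ 0 := by
    intro h
    have : (2 * ((m : ℤ) + 1) - 4 * k - 3 : ℤ) = 0 := by
      have h' : ((2 * ((m : ℤ) + 1) - 4 * k - 3 : ℤ) : ℚ) = 0 := by push_cast; linarith
      exact_mod_cast h'
    omega
  -- S (2N) (N+1+2k)
  have e1 : (S (2 * (m + 1)) (m + 1 + 1 + 2 * k) : ℚ) = (2 * N + 4 * K + 1) / (2 * N - 4 * K - 1) * s := by
    have h := S_ratio (2 * (m + 1)) (m + 1 + 2 * k)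
    have h' : (2 * (2 * ((m : ℚ) + 1)) - 2 * (m + 1 + 2 * k) - 1) * (S (2 * (m + 1)) (m + 1 + 2 * k + 1) : ℚ)
        = (2 * (m + 1 + 2 * k) + 1) * (S (2 * (m + 1)) (m + 1 + 2 * k) : ℚ) := by
      exact_mod_cast h
    rw [show m + 1 + 1 + 2 * k = m + 1 + 2 * k + 1 by ring]
    rw [eq_comm, div_mul_eq_mul_div, div_eq_iff hodd1]
    rw [hs, hN, hK]; linear_combination (-1) * h'
  have e1b : (S (2 * (m + 1)) (m + 1 + 2 * (k + 1)) : ℚ) =
      (2 * N + 4 * K + 3) / (2 * N - 4 * K - 3) * ((2 * N + 4 * K + 1) / (2 * N - 4 * K - 1) * s) := by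
    have h := S_ratio (2 * (m + 1)) (m + 1 + 2 * k + 1)
    have h' : (2 * (2 * ((m : ℚ) + 1)) - 2 * (m + 1 + 2 * k + 1) - 1) * (S (2 * (m + 1)) (m + 1 + 2 * k + 1 + 1) : ℚ)
        = (2 * (m + 1 + 2 * k + 1) + 1) * (S (2 * (m + 1)) (m + 1 + 2 * k + 1) : ℚ) := by
      exact_mod_cast h
    rw [show m + 1 + 2 * (k + 1) = m + 1 + 2 * k + 1 + 1 by ring]
    rw [show m + 1 + 1 + 2 * k = m + 1 + 2 * k + 1 by ring] at e1
    rw [e1] at h'
    rw [eq_comm, div_mul_eq_mul_div, div_eq_iff hodd3]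
    rw [hs, hN, hK] at *; linear_combination (-1) * h'
  -- C(2N+1, N+1+k)
  have e2 : ((2 * (m + 1) + 1).choose (m + 1 + k + 1) : ℚ) = (2 * N + 1) / (N + K + 1) * c := by
    have h := ch_diag (2 * (m + 1)) (m + 1 + k)
    have h' : (((m : ℚ) + 1 + k) + 1) * ((2 * (m + 1) + 1).choose (m + 1 + k + 1) : ℚ)
        = (2 * ((m : ℚ) + 1) + 1) * ((2 * (m + 1)).choose (m + 1 + k) : ℚ) := by exact_mod_cast h
    rw [eq_comm, div_mul_eq_mul_div, div_eq_iff (by positivity)]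
    rw [hc, hN, hK]; linear_combination (-1) * h'
  have e3 : ((2 * (m + 1)).choose (m + 1 + k) : ℚ) - ((2 * (m + 1)).choose (m + 1 + k + 1) : ℚ)
      = (2 * K + 1) / (2 * N + 1) * ((2 * N + 1) / (N + K + 1) * c) := by
    have h := ch_ballot (2 * (m + 1)) (m + 1 + k)
    have h' : (2 * ((m : ℚ) + 1) + 1) * (((2 * (m + 1)).choose (m + 1 + k) : ℚ) - ((2 * (m + 1)).choose (m + 1 + k + 1) : ℚ))
        = (2 * ((m : ℚ) + 1 + k) + 1 - (2 * (m + 1))) * ((2 * (m + 1) + 1).choose (m + 1 + k + 1) : ℚ) := by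
      exact_mod_cast h
    rw [e2] at h'
    rw [eq_comm, div_mul_eq_mul_div, div_eq_iff (by positivity)]
    rw [hc, hN, hK] at *; linear_combination (-1) * h'
  -- S (2N-2) (N+2k)
  have e4 : (S (2 * m) (m + 1 + 2 * k) : ℚ) =
      (2 * N - 1) / (2 * (2 * N - 4 * K - 3)) * (N / (2 * N - 4 * K - 1) * s) := by
    have h := S_level (2 * m + 1) (m + 1 + 2 * k)
    have h' : ((2 * (m : ℚ) + 1) + 1) * (S (2 * (m + 1)) (m + 1 + 2 * k) : ℚ)
        = 2 * (2 * (2 * (m : ℚ) + 1) - 2 * (m + 1 + 2 * k) + 1) * (S (2 * m + 1) (m + 1 + 2 * k) : ℚ) := by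
      exact_mod_cast h
    have g := S_level (2 * m) (m + 1 + 2 * k)
    have g' : (2 * (m : ℚ) + 1) * (S (2 * m + 1) (m + 1 + 2 * k) : ℚ)
        = 2 * (2 * (2 * (m : ℚ)) - 2 * (m + 1 + 2 * k) + 1) * (S (2 * m) (m + 1 + 2 * k) : ℚ) := by
      exact_mod_cast g
    have f : (S (2 * m + 1) (m + 1 + 2 * k) : ℚ) = N / (2 * N - 4 * K - 1) * s := by
      rw [eq_comm, div_mul_eq_mul_div, div_eq_iff hodd1]
      rw [hs, hN, hK]; linear_combination (1/2) * h'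
    rw [f] at g'
    rw [eq_comm, div_mul_eq_mul_div, div_eq_iff (by intro h0; apply hodd3; linarith)]
    rw [hs, hN, hK] at *; linear_combination g'
  -- C(2N-1, N+k)
  have e5 : ((2 * m + 1).choose (m + k + 1) : ℚ) = (N - K) / (2 * N) * c := by
    have h := ch_up (2 * m + 1) (m + k + 1)
    have h' : (2 * (m : ℚ) + 1 + 1 - (m + k + 1)) * ((2 * m + 1 + 1).choose (m + k + 1) : ℚ)
        = (2 * (m : ℚ) + 1 + 1) * ((2 * m + 1).choose (m + k + 1) : ℚ) := by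
      exact_mod_cast h
    rw [show 2 * m + 1 + 1 = 2 * (m + 1) by ring, show m + k + 1 = m + 1 + k by ring] at h'
    rw [show m + k + 1 = m + 1 + k by ring]
    rw [eq_comm, div_mul_eq_mul_div, div_eq_iff (by positivity)]
    rw [hc, hN, hK]; linear_combination h'
  have e6 : ((2 * m).choose (m + k) : ℚ) - ((2 * m).choose (m + k + 1) : ℚ)
      = (2 * K + 1) / (2 * N - 1) * ((N - K) / (2 * N) * c) := by
    have h := ch_ballot (2 * m) (m + k)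
    have h' : (2 * (m : ℚ) + 1) * (((2 * m).choose (m + k) : ℚ) - ((2 * m).choose (m + k + 1) : ℚ))
        = (2 * ((m : ℚ) + k) + 1 - (2 * m)) * ((2 * m + 1).choose (m + k + 1) : ℚ) := by
      exact_mod_cast h
    rw [e5] at h'
    have hpos : (2 * N - 1 : ℚ) ≠ 0 := by
      have : (0 : ℚ) < 2 * N - 1 := by rw [hN]; linarith
      exact ne_of_gt this
    rw [eq_comm, div_mul_eq_mul_div, div_eq_iff hpos]
    rw [hc, hN, hK] at *; linear_combination (-1) * h'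
  have e8 : ((2 * (m + 1)).choose (m + 1 + (k + 1)) : ℚ)
      = (N - K) / (N + K + 1) * c := by
    have h := ch_right (2 * (m + 1)) (m + 1 + k)
    have h' : (((m : ℚ) + 1 + k) + 1) * ((2 * (m + 1)).choose (m + 1 + k + 1) : ℚ)
        = (2 * ((m : ℚ) + 1) - (m + 1 + k)) * ((2 * (m + 1)).choose (m + 1 + k) : ℚ) := by
      exact_mod_cast h
    rw [show m + 1 + (k + 1) = m + 1 + k + 1 by ring]
    rw [eq_comm, div_mul_eq_mul_div, div_eq_iff (by positivity)]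
    rw [hc, hN, hK]; linear_combination (-1) * h'
  have key : (2 * (m : ℚ) + 3) ^ 3 * (tG (m + 1) k : ℚ) - 2 ^ 17 * ((m : ℚ) + 1) ^ 3 * (tG m k : ℚ) =
      ((HG (m + 1) k : ℚ) - (HG (m + 1) (k + 1) : ℚ)) := by
    simp only [tG, HG, VG, PG]
    push_cast
    rw [e1, e2, e3, e4, e5, e6, e8, e1b]
    rw [← hs, ← hc, ← hN, ← hK]
    have hm : (m : ℚ) = N - 1 := by rw [hN]; ring
    rw [hm]
    have h1 : (2 * N + 1 : ℚ) ≠ 0 := by positivity
    have h2 : (N + K + 1 : ℚ) ≠ 0 := by positivity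
    have h5 : (N : ℚ) ≠ 0 := by positivity
    have h6 : (2 * (N - 2 * K) - 1 : ℚ) ≠ 0 := by
      intro h; apply hodd1; linarith
    have h7 : (2 * (N - 2 * K) - 3 : ℚ) ≠ 0 := by
      intro h; apply hodd3; linarith
    have h8 : (2 * N - 1 : ℚ) ≠ 0 := by
      have : (0 : ℚ) < 2 * N - 1 := by rw [hN]; linarith
      exact ne_of_gt this
    field_simp
    ring
  exact_mod_cast key

end Pool.Agent.helper88
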